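import Pool.Agent.U753.MX.Stm2

/-!
# Project MX, package GG (helper461)
-/

set_option autoImplicit false

open scoped BigOperators Matrix InnerProductSpace

namespace Pool.Agent.U461.MX

open Pool.Agent.TH235.PP
open Pool.Agent.Results.MP_953b23_mp.ThermalCriterion (partition energy)
open Pool.Agent.U753.MX

theorem t_gg : StmGG := by
  intro n _ _ H hH Δ ψ hΔ hψ hg β hβ
  obtain ⟨E, hE, hsimple, hgap⟩ := hg
  have hEE : energy H ψ = E := by
    unfold energy
    rw [hE, ip_smul_right, ip_self_one ψ hψ, mul_one, Complex.ofReal_re]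
  rw [hEE]
  have hAb : ∀ j, H *ᵥ (hH.eigenvectorBasis j).ofLp =
      (hH.eigenvalues j : ℂ) • (hH.eigenvectorBasis j).ofLp := by
    intro j
    have := hH.mulVec_eigenvectorBasis j
    rw [this]
    rfl
  have hbne : ∀ j, (hH.eigenvectorBasis j).ofLp ≠ 0 := by
    intro j h0
    have h1 : hH.eigenvectorBasis j = 0 := by
      have : hH.eigenvectorBasis j = WithLp.toLp 2 ((hH.eigenvectorBasis j).ofLp) := rfl
      rw [this, h0]; rfl
    have h2 := hH.eigenvectorBasis.norm_eq_one j
    rw [h1, norm_zero] at h2
    exact zero_ne_one h2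
  have huniq : ∀ j k, hH.eigenvalues j = E → hH.eigenvalues k = E → j = k := by
    intro j k hj hk
    by_contra hjk
    have e1 := hAb j
    have e2 := hAb k
    rw [hj] at e1
    rw [hk] at e2
    obtain ⟨c, hc⟩ := hsimple _ e1
    obtain ⟨c', hc'⟩ := hsimple _ e2
    have h1 : ip (hH.eigenvectorBasis j).ofLp (hH.eigenvectorBasis k).ofLp = 0 := by
      rw [ip_eq]
      exact hH.eigenvectorBasis.orthonormal.2 hjk
    rw [hc, hc', ip_smul_left, ip_smul_right, ip_self_one ψ hψ, mul_one] at h1
    rcases mul_eq_zero.1 h1 with h | h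
    · apply hbne j
      rw [hc, (map_eq_zero _).1 h, zero_smul]
    · apply hbne k
      rw [hc', h, zero_smul]
  classical
  unfold partition
  have hterm : ∀ j, Real.exp (-(β * (hH.eigenvalues j - E))) ≤
      (if hH.eigenvalues j = E then 1 else 0) + Real.exp (-(β * Δ)) := by
    intro j
    rcases hgap _ _ (hbne j) (hAb j) with h | h
    · rw [if_pos h, h, sub_self, mul_zero, neg_zero, Real.exp_zero]
      linarith [Real.exp_pos (-(β * Δ))]
    · have h0 : (0 : ℝ) ≤ (if hH.eigenvalues j = E then 1 else 0) := by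
        split_ifs <;> norm_num
      have h1 : Real.exp (-(β * (hH.eigenvalues j - E))) ≤ Real.exp (-(β * Δ)) := by
        apply Real.exp_le_exp.2
        have := mul_le_mul_of_nonneg_left (by linarith : Δ ≤ hH.eigenvalues j - E) hβ
        linarith
      linarith
  refine (Finset.sum_le_sum fun j _ => hterm j).trans ?_
  rw [Finset.sum_add_distrib, Finset.sum_const, Finset.card_univ, nsmul_eq_mul, Finset.sum_ite,
    Finset.sum_const_zero, add_zero, Finset.sum_const, nsmul_eq_mul, mul_one]
  have hcard : (Finset.univ.filter fun j => hH.eigenvalues j = E).card ≤ 1 := by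
    rw [Finset.card_le_one]
    intro a ha b hb
    rw [Finset.mem_filter] at ha hb
    exact huniq a b ha.2 hb.2
  have : ((Finset.univ.filter fun j => hH.eigenvalues j = E).card : ℝ) ≤ 1 := by
    exact_mod_cast hcard
  linarith

end Pool.Agent.U461.MX
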